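import Pool.Agent.N922.PQ.Stm

/-!
# From the family to minimal curves (project PQ, part CRV; helper707)
-/

set_option autoImplicit false

namespace Pool.Agent.N707.PQ

open Pool.Agent.N922.PQ Finset

theorem prod_pos' {S : Finset ℤ} {s : ℤ → ℤ} (hS : GoodS S s) {J : Finset ℤ} (hJ : J ⊆ S) :
    0 < ∏ Q ∈ J, Q := Finset.prod_pos fun Q hQ => (hS Q (hJ hQ)).1.1

theorem pr_eq {p Q : ℤ} (hp : 0 < p) (hp' : Prime p) (hQ : IsPr Q) (h : p ∣ Q) : p = Q := by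
  have h1 := (Prime.dvd_prime_iff_associated hp' hQ.2).1 h
  rcases Int.associated_iff.1 h1 with h2 | h2
  · exact h2
  · have := hQ.1
    omega

theorem cop_prod {S : Finset ℤ} {s : ℤ → ℤ} (hS : GoodS S s) {J : Finset ℤ} (hJ : J ⊆ S) {p : ℤ}
    (hp : 0 < p) (hp' : Prime p) (h : p ∉ J) : IsCoprime p (∏ Q ∈ J, Q) := by
  refine IsCoprime.prod_right fun Q hQ => ?_
  rw [Prime.coprime_iff_not_dvd hp']
  intro h1
  have := pr_eq hp hp' (hS Q (hJ hQ)).1 h1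
  exact h (this ▸ hQ)

theorem crv : S_CRV := by
  intro X H S T s A B a b hS hT hF J hJ hH
  set D : ℤ := ∏ Q ∈ J, Q with hD
  set P : ℤ := ∏ Q ∈ S, Q with hP
  have hD0 : 0 < D := prod_pos' hS hJ
  have hP0 : 0 < P := prod_pos' hS subset_rfl
  have hDP : D ≤ P := Int.le_of_dvd hP0 (Finset.prod_dvd_prod_of_subset J S _ hJ)
  have hX0 : (0:ℤ) ≤ X := Int.natCast_nonneg X
  have hXP : 0 ≤ (X:ℤ) * P := mul_nonneg hX0 hP0.le
  refine ⟨?_, ?_, ?_, ?_⟩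
  · have h1 : 4 * (a * D ^ 2) ^ 3 + 27 * (b * D ^ 3) ^ 2 = D ^ 6 * dsc a b := by
      unfold dsc
      ring
    rw [h1]
    exact mul_ne_zero (pow_ne_zero _ hD0.ne') hF.sq.ne_zero
  · rintro p hp ⟨h4, h6⟩
    have hp0 : (0:ℤ) < p := by exact_mod_cast hp.pos
    have hpp : Prime (p : ℤ) := Nat.prime_iff_prime_int.1 hp
    by_cases hpJ : (p : ℤ) ∈ J
    · have hDe : D = p * ∏ Q ∈ J.erase (p : ℤ), Q := by
        rw [hD, Finset.mul_prod_erase J (fun Q => Q) hpJ]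
      set D' : ℤ := ∏ Q ∈ J.erase (p : ℤ), Q with hD'
      have hcop : IsCoprime (p : ℤ) D' :=
        cop_prod hS ((Finset.erase_subset _ _).trans hJ) hp0 hpp (Finset.notMem_erase _ _)
      have h5 : (p : ℤ) ^ 2 * (p : ℤ) ^ 2 ∣ (p : ℤ) ^ 2 * (a * D' ^ 2) := by
        have e1 : (p : ℤ) ^ 2 * (p : ℤ) ^ 2 = (p : ℤ) ^ 4 := by ring
        have e2 : (p : ℤ) ^ 2 * (a * D' ^ 2) = a * D ^ 2 := by rw [hDe]; ring
        rw [e1, e2]
        exact h4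
      have h7 : (p : ℤ) ^ 2 ∣ a * D' ^ 2 := Int.dvd_of_mul_dvd_mul_left (by positivity) h5
      have h8 : (p : ℤ) ^ 2 ∣ a := (hcop.pow).dvd_of_dvd_mul_right h7
      have h9 : (p : ℤ) ∣ a := (dvd_pow_self _ two_ne_zero).trans h8
      have h10 := hF.ra p (hJ hpJ)
      have h11 : (p : ℤ) ∣ s p := by
        have := dvd_sub h9 h10
        rwa [sub_sub_cancel] at this
      have h12 := (hS p (hJ hpJ)).2.2 0
      apply h12
      rw [zero_pow two_ne_zero, zero_add]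
      exact h11
    · have hcop : IsCoprime (p : ℤ) D := cop_prod hS hJ hp0 hpp hpJ
      have h7 : (p : ℤ) ^ 4 ∣ a := (hcop.pow).dvd_of_dvd_mul_right h4
      have h8 : (p : ℤ) ^ 6 ∣ b := (hcop.pow).dvd_of_dvd_mul_right h6
      have h9 : (p : ℤ) * p ∣ dsc a b := by
        obtain ⟨a', rfl⟩ := h7
        obtain ⟨b', rfl⟩ := h8
        refine ⟨4 * (p : ℤ) ^ 10 * a' ^ 3 + 27 * (p : ℤ) ^ 10 * b' ^ 2, ?_⟩
        unfold dsc
        ring
      exact hpp.not_isUnit (hF.sq p h9)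
  · have h1 : |a * D ^ 2| ≤ ((X:ℤ) * P) ^ 2 := by
      rw [abs_of_nonneg (mul_nonneg hF.pa.le (by positivity)), mul_pow]
      exact mul_le_mul hF.da (pow_le_pow_left₀ hD0.le hDP 2) (by positivity) (by positivity)
    have h2 : |a * D ^ 2| ^ 3 ≤ (((X:ℤ) * P) ^ 2) ^ 3 := pow_le_pow_left₀ (abs_nonneg _) h1 3
    have h3 : (((X:ℤ) * P) ^ 2) ^ 3 = ((X:ℤ) * P) ^ 6 := by ring
    have h4 : 0 ≤ ((X:ℤ) * P) ^ 6 := by positivity
    rw [h3] at h2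
    linarith
  · have h1 : |b * D ^ 3| ≤ ((X:ℤ) * P) ^ 3 := by
      rw [abs_mul, abs_of_pos (pow_pos hD0 3), mul_pow]
      exact mul_le_mul hF.db (pow_le_pow_left₀ hD0.le hDP 3) (by positivity) (by positivity)
    have h2 : |b * D ^ 3| ^ 2 ≤ (((X:ℤ) * P) ^ 3) ^ 2 := pow_le_pow_left₀ (abs_nonneg _) h1 2
    have h3 : (((X:ℤ) * P) ^ 3) ^ 2 = ((X:ℤ) * P) ^ 6 := by ring
    rw [h3, sq_abs] at h2
    linarith

end Pool.Agent.N707.PQ
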